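import Pool.Agent.R660.CF.Tilde
import Pool.Agent.R660.CF.Mono

/-!
# Entropy plateau for slow `(a,b)`-continued fraction maps

`ft e a b` is the map of `[-1, 1]` of the problem, `lapSet F` is the set of the maximal intervals
on which `F` is monotone, and `lapsI e a b n` is the number of the laps of the `n`-th iterate.
-/

set_option autoImplicit false

namespace Pool.Agent.Results.MP_a78abf_an.EntropyPlateau

open Filter Topology Set Pool.Agent.R660.CF

/-- There is a function `H` on the parameter set which gives the topological entropy: the number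
of laps of the `n`-th iterate is finite and `log (number of laps) / n → H a b` for every `(a, b)`
in `𝒫` (whichever of the two values `1`, `-1` is used for the middle branch at its jump `0`); and
`H a b = H (-1) b` for all `b` in `[0, 1/2]` and all `a` in `[-1, -1/(b+1)]`. -/
theorem result : ∃ H : ℝ → ℝ → ℝ,
    (∀ e a b : ℝ, (e = 1 ∨ e = -1) → InP a b →
      (∀ n : ℕ, (lapSet (ft e a b)^[n]).Finite) ∧
      Tendsto (fun n : ℕ => Real.log (lapsI e a b n) / n) atTop (𝓝 (H a b))) ∧
    ∀ a b : ℝ, 0 ≤ b → b ≤ 1 / 2 → -1 ≤ a → a ≤ -1 / (b + 1) →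
      InP a b ∧ InP (-1) b ∧ H a b = H (-1) b := by
  classical
  refine ⟨fun a b => if h : InP a b then (exists_entropy h).choose else 0, ?_, ?_⟩
  · intro e a b _ hab
    refine ⟨fun n => (lapSet_spec hab e n).1, ?_⟩
    rw [entropy_lapsI hab]
    simp only [dif_pos hab]
    exact (exists_entropy hab).choose_spec
  · intro a b hb hb2 ha1 ha2
    obtain ⟨hab, h⟩ := plateau_entropy hb hb2 ha1 ha2
    have hab' : InP (-1) b := ⟨by norm_num, hb, by linarith, by linarith⟩
    refine ⟨hab, hab', ?_⟩
    simp only
    rw [dif_pos hab, dif_pos hab']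
    exact h _ _ (exists_entropy hab).choose_spec (exists_entropy hab').choose_spec

end Pool.Agent.Results.MP_a78abf_an.EntropyPlateau
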